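import Mathlib

set_option autoImplicit false

section

open MeasureTheory Set Filter Topology
open scoped BoundedContinuousFunction NNReal

namespace Pool.Agent.Y848.NB.Chazy

variable {E : Type*} [NormedAddCommGroup E] [NormedSpace ℝ E] [CompleteSpace E]

theorem hasDerivAt_Ioi (f : ℝ → E) (c t : ℝ) (hct : c < t) (hf : ContinuousOn f (Ioi c))
    (hint : IntegrableOn f (Ioi c)) : HasDerivAt (fun t => ∫ s in Ioi t, f s) (-(f t)) t := by
  have hcont : ContinuousAt f t := hf.continuousAt (Ioi_mem_nhds hct)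
  have h1 : HasDerivAt (fun x => ∫ s in c..x, f s) (f t) t := by
    apply intervalIntegral.integral_hasDerivAt_right
    · rw [intervalIntegrable_iff_integrableOn_Ioc_of_le hct.le]
      exact hint.mono_set Ioc_subset_Ioi_self
    · exact hf.stronglyMeasurableAtFilter isOpen_Ioi t hct
    · exact hcont
  have h2 : (fun x => ∫ s in Ioi x, f s) =ᶠ[𝓝 t]
      fun x => (∫ s in Ioi c, f s) - ∫ s in c..x, f s := by
    filter_upwards [Ioi_mem_nhds hct] with x hx
    have := intervalIntegral.integral_interval_add_Ioi hint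
      (hint.mono_set (Ioi_subset_Ioi (le_of_lt hx)))
    rw [← this]
    simp
  have h3 := (hasDerivAt_const t (∫ s in Ioi c, f s)).sub h1
  rw [zero_sub] at h3
  exact h3.congr_of_eventuallyEq h2

/-- tail integral of G and of s G -/
noncomputable def tailA (G : ℝ → E) (t : ℝ) : E := ∫ s in Ioi t, G s
noncomputable def tailB (G : ℝ → E) (t : ℝ) : E := ∫ s in Ioi t, s • G s

theorem int_G (G : ℝ → E) (c M : ℝ) (hc : 0 < c) (hG : ContinuousOn G (Ioi c))
    (hM : ∀ s, c < s → ‖G s‖ ≤ M * s ^ (-(5 : ℝ) / 2)) : IntegrableOn G (Ioi c) := by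
  have h1 : IntegrableOn (fun s : ℝ => M * s ^ (-(5 : ℝ) / 2)) (Ioi c) :=
    (integrableOn_Ioi_rpow_of_lt (by norm_num) hc).const_mul M
  refine Integrable.mono' h1 (hG.aestronglyMeasurable measurableSet_Ioi) ?_
  filter_upwards [ae_restrict_mem measurableSet_Ioi] with s hs
  exact hM s hs

theorem int_sG (G : ℝ → E) (c M : ℝ) (hc : 0 < c) (hG : ContinuousOn G (Ioi c))
    (hM : ∀ s, c < s → ‖G s‖ ≤ M * s ^ (-(5 : ℝ) / 2)) :
    IntegrableOn (fun s => s • G s) (Ioi c) := by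
  have h1 : IntegrableOn (fun s : ℝ => M * s ^ (-(3 : ℝ) / 2)) (Ioi c) :=
    (integrableOn_Ioi_rpow_of_lt (by norm_num) hc).const_mul M
  refine Integrable.mono' h1
    ((continuousOn_id.smul hG).aestronglyMeasurable measurableSet_Ioi) ?_
  filter_upwards [ae_restrict_mem measurableSet_Ioi] with s hs
  have hs0 : 0 < s := hc.trans hs
  rw [norm_smul, Real.norm_of_nonneg hs0.le]
  calc s * ‖G s‖ ≤ s * (M * s ^ (-(5 : ℝ) / 2)) :=
        mul_le_mul_of_nonneg_left (hM s hs) hs0.le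
    _ = M * (s ^ (1 : ℝ) * s ^ (-(5 : ℝ) / 2)) := by rw [Real.rpow_one]; ring
    _ = M * s ^ (-(3 : ℝ) / 2) := by
        rw [← Real.rpow_add hs0]; norm_num

theorem tail_eq (G : ℝ → E) (c M : ℝ) (hc : 0 < c) (hG : ContinuousOn G (Ioi c))
    (hM : ∀ s, c < s → ‖G s‖ ≤ M * s ^ (-(5 : ℝ) / 2)) (t : ℝ) (ht : c ≤ t) :
    tailB G t - t • tailA G t = ∫ s in Ioi t, (s - t) • G s := by
  unfold tailA tailB
  have h1 := (int_G G c M hc hG hM).mono_set (Ioi_subset_Ioi ht)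
  have h2 := (int_sG G c M hc hG hM).mono_set (Ioi_subset_Ioi ht)
  have h3 : IntegrableOn (fun s => t • G s) (Ioi t) := h1.smul t
  rw [← integral_smul, ← integral_sub h2 h3]
  simp only [sub_smul]

theorem tail_norm (G : ℝ → E) (c M : ℝ) (hc : 0 < c) (hG : ContinuousOn G (Ioi c))
    (hM : ∀ s, c < s → ‖G s‖ ≤ M * s ^ (-(5 : ℝ) / 2)) (t : ℝ) (ht : c ≤ t) :
    ‖tailB G t - t • tailA G t‖ ≤ 2 * M * t ^ (-(1 : ℝ) / 2) := by
  have ht0 : 0 < t := hc.trans_le ht
  rw [tail_eq G c M hc hG hM t ht]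
  have h1 : IntegrableOn (fun s : ℝ => M * s ^ (-(3 : ℝ) / 2)) (Ioi t) :=
    (integrableOn_Ioi_rpow_of_lt (by norm_num) ht0).const_mul M
  have h2 : ‖∫ s in Ioi t, (s - t) • G s‖ ≤ ∫ s in Ioi t, M * s ^ (-(3 : ℝ) / 2) := by
    refine norm_integral_le_of_norm_le h1 ?_
    filter_upwards [ae_restrict_mem measurableSet_Ioi] with s hs
    have hts : t < s := hs
    have hs0 : 0 < s := ht0.trans hts
    have hcs : c < s := lt_of_le_of_lt ht hts
    rw [norm_smul, Real.norm_of_nonneg (by linarith)]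
    have hG0 := hM s hcs
    calc (s - t) * ‖G s‖ ≤ s * (M * s ^ (-(5 : ℝ) / 2)) :=
          mul_le_mul (by linarith) hG0 (norm_nonneg _) hs0.le
      _ = M * (s ^ (1 : ℝ) * s ^ (-(5 : ℝ) / 2)) := by rw [Real.rpow_one]; ring
      _ = M * s ^ (-(3 : ℝ) / 2) := by
          rw [← Real.rpow_add hs0]; norm_num
  refine h2.trans (le_of_eq ?_)
  rw [integral_const_mul, integral_Ioi_rpow_of_lt (by norm_num) ht0]
  norm_num
  ring

theorem tailA_norm (G : ℝ → E) (c M : ℝ) (hc : 0 < c)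
    (hM : ∀ s, c < s → ‖G s‖ ≤ M * s ^ (-(5 : ℝ) / 2)) (t : ℝ) (ht : c ≤ t) :
    ‖tailA G t‖ ≤ M * t ^ (-(3 : ℝ) / 2) := by
  have ht0 : 0 < t := hc.trans_le ht
  have hM0 : 0 ≤ M := by
    have h1 := hM (c + 1) (by linarith)
    have h2 : 0 < (c + 1) ^ (-(5 : ℝ) / 2) := Real.rpow_pos_of_pos (by linarith) _
    by_contra hneg
    push Not at hneg
    have h3 : M * (c + 1) ^ (-(5 : ℝ) / 2) < 0 := mul_neg_of_neg_of_pos hneg h2
    linarith [norm_nonneg (G (c + 1))]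
  have h1 : IntegrableOn (fun s : ℝ => M * s ^ (-(5 : ℝ) / 2)) (Ioi t) :=
    (integrableOn_Ioi_rpow_of_lt (by norm_num) ht0).const_mul M
  have h2 : ‖tailA G t‖ ≤ ∫ s in Ioi t, M * s ^ (-(5 : ℝ) / 2) := by
    refine norm_integral_le_of_norm_le h1 ?_
    filter_upwards [ae_restrict_mem measurableSet_Ioi] with s hs
    exact hM s (lt_of_le_of_lt ht hs)
  refine h2.trans ?_
  rw [integral_const_mul, integral_Ioi_rpow_of_lt (by norm_num) ht0]
  have h3 : 0 < t ^ (-(3 : ℝ) / 2) := Real.rpow_pos_of_pos ht0 _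
  have h4 : (-(5 : ℝ) / 2 + 1) = -(3 : ℝ) / 2 := by norm_num
  rw [h4]
  have h5 : -t ^ (-(3 : ℝ) / 2) / (-(3 : ℝ) / 2) = (2 / 3) * t ^ (-(3 : ℝ) / 2) := by ring
  rw [h5]
  nlinarith [mul_nonneg hM0 h3.le]

theorem tail_diff (G1 G2 : ℝ → E) (c M N : ℝ) (hc : 0 < c) (hG1 : ContinuousOn G1 (Ioi c))
    (hG2 : ContinuousOn G2 (Ioi c))
    (hM1 : ∀ s, c < s → ‖G1 s‖ ≤ M * s ^ (-(5 : ℝ) / 2))
    (hM2 : ∀ s, c < s → ‖G2 s‖ ≤ M * s ^ (-(5 : ℝ) / 2))
    (hN : ∀ s, c < s → ‖G1 s - G2 s‖ ≤ N * s ^ (-(3 : ℝ))) (t : ℝ) (ht : c ≤ t) :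
    ‖(tailB G1 t - t • tailA G1 t) - (tailB G2 t - t • tailA G2 t)‖ ≤ N * t⁻¹ := by
  have ht0 : 0 < t := hc.trans_le ht
  rw [tail_eq G1 c M hc hG1 hM1 t ht, tail_eq G2 c M hc hG2 hM2 t ht]
  have i1 : IntegrableOn (fun s => (s - t) • G1 s) (Ioi t) := by
    have h1 := (int_G G1 c M hc hG1 hM1).mono_set (Ioi_subset_Ioi ht)
    have h2 := (int_sG G1 c M hc hG1 hM1).mono_set (Ioi_subset_Ioi ht)
    have := h2.sub (h1.smul t)
    refine this.congr (Eventually.of_forall fun s => ?_)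
    simp [sub_smul]
  have i2 : IntegrableOn (fun s => (s - t) • G2 s) (Ioi t) := by
    have h1 := (int_G G2 c M hc hG2 hM2).mono_set (Ioi_subset_Ioi ht)
    have h2 := (int_sG G2 c M hc hG2 hM2).mono_set (Ioi_subset_Ioi ht)
    have := h2.sub (h1.smul t)
    refine this.congr (Eventually.of_forall fun s => ?_)
    simp [sub_smul]
  rw [← integral_sub i1 i2]
  have h1 : IntegrableOn (fun s : ℝ => N * s ^ (-(2 : ℝ))) (Ioi t) :=
    (integrableOn_Ioi_rpow_of_lt (by norm_num) ht0).const_mul N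
  have h2 : ‖∫ s in Ioi t, ((s - t) • G1 s - (s - t) • G2 s)‖ ≤ ∫ s in Ioi t, N * s ^ (-(2 : ℝ)) := by
    refine norm_integral_le_of_norm_le h1 ?_
    filter_upwards [ae_restrict_mem measurableSet_Ioi] with s hs
    have hts : t < s := hs
    have hs0 : 0 < s := ht0.trans hts
    have hcs : c < s := lt_of_le_of_lt ht hts
    rw [← smul_sub, norm_smul, Real.norm_of_nonneg (by linarith)]
    calc (s - t) * ‖G1 s - G2 s‖ ≤ s * (N * s ^ (-(3 : ℝ))) :=
          mul_le_mul (by linarith) (hN s hcs) (norm_nonneg _) hs0.le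
      _ = N * (s ^ (1 : ℝ) * s ^ (-(3 : ℝ))) := by rw [Real.rpow_one]; ring
      _ = N * s ^ (-(2 : ℝ)) := by
          rw [← Real.rpow_add hs0]; norm_num
  refine h2.trans (le_of_eq ?_)
  rw [integral_const_mul, integral_Ioi_rpow_of_lt (by norm_num) ht0]
  have h4 : (-(2 : ℝ) + 1) = -1 := by norm_num
  rw [h4, Real.rpow_neg_one]
  ring

theorem tail_deriv (G : ℝ → E) (c M : ℝ) (hc : 0 < c) (hG : ContinuousOn G (Ioi c))
    (hM : ∀ s, c < s → ‖G s‖ ≤ M * s ^ (-(5 : ℝ) / 2)) (t : ℝ) (ht : c < t) :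
    HasDerivAt (fun t => tailB G t - t • tailA G t) (-(tailA G t)) t ∧
    HasDerivAt (fun t => -(tailA G t)) (G t) t := by
  have hA := hasDerivAt_Ioi G c t ht hG (int_G G c M hc hG hM)
  have hB := hasDerivAt_Ioi (fun s => s • G s) c t ht (continuousOn_id.smul hG)
    (int_sG G c M hc hG hM)
  constructor
  · have h1 := hB.sub ((hasDerivAt_id t).smul hA)
    refine h1.congr_deriv ?_
    simp [tailA]
  · have h1 := hA.neg
    refine h1.congr_deriv ?_
    simp

/-- perturbation field in the integral equation -/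
noncomputable def gf (F : E → E) (a k : E) (w : ℝ → E) (s : ℝ) : E :=
  (s ^ 2)⁻¹ • (F (a + s⁻¹ • (-(Real.log s) • F a + k + w s)) - F a)

omit [CompleteSpace E] in
theorem arg_bound (Fa k w : E) (C0 s : ℝ) (hs : 1 ≤ s) (hC0 : C0 = 2 * ‖Fa‖ + ‖k‖ + 1)
    (hw : ‖w‖ ≤ 1) :
    ‖s⁻¹ • (-(Real.log s) • Fa + k + w)‖ ≤ C0 * s ^ (-(1 : ℝ) / 2) := by
  have hs0 : 0 < s := by linarith
  have h1 : Real.log s ≤ 2 * s ^ ((1 : ℝ) / 2) := by
    have := Real.log_le_rpow_div hs0.le (by norm_num : (0 : ℝ) < 1 / 2)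
    linarith
  have h2 : 0 ≤ Real.log s := Real.log_nonneg hs
  have h3 : 1 ≤ s ^ ((1 : ℝ) / 2) := Real.one_le_rpow hs (by norm_num)
  have h4 : ‖-(Real.log s) • Fa + k + w‖ ≤ C0 * s ^ ((1 : ℝ) / 2) := by
    calc ‖-(Real.log s) • Fa + k + w‖ ≤ ‖-(Real.log s) • Fa‖ + ‖k‖ + ‖w‖ := norm_add₃_le
      _ = Real.log s * ‖Fa‖ + ‖k‖ + ‖w‖ := by
        rw [norm_smul, Real.norm_eq_abs, abs_neg, abs_of_nonneg h2]
      _ ≤ 2 * s ^ ((1 : ℝ) / 2) * ‖Fa‖ + ‖k‖ * s ^ ((1 : ℝ) / 2) + 1 * s ^ ((1 : ℝ) / 2) := by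
        apply add_le_add
        · apply add_le_add
          · exact mul_le_mul_of_nonneg_right h1 (norm_nonneg _)
          · exact le_mul_of_one_le_right (norm_nonneg _) h3
        · linarith
      _ = C0 * s ^ ((1 : ℝ) / 2) := by rw [hC0]; ring
  rw [norm_smul, Real.norm_eq_abs, abs_of_pos (by positivity)]
  calc s⁻¹ * ‖-(Real.log s) • Fa + k + w‖ ≤ s⁻¹ * (C0 * s ^ ((1 : ℝ) / 2)) :=
        mul_le_mul_of_nonneg_left h4 (by positivity)
    _ = C0 * (s ^ (-(1 : ℝ)) * s ^ ((1 : ℝ) / 2)) := by rw [Real.rpow_neg_one]; ring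
    _ = C0 * s ^ (-(1 : ℝ) / 2) := by
        rw [← Real.rpow_add hs0]; norm_num

theorem chazy (F : E → E) (a k : E) (δ : ℝ) (hδ : 0 < δ) (K : ℝ≥0)
    (hLip : LipschitzOnWith K F (Metric.closedBall a δ))
    (hhom : ∀ s : ℝ, 0 < s → ∀ x ∈ Metric.closedBall a δ, F (s • x) = (s ^ 2)⁻¹ • F x) :
    ∃ T C : ℝ, 1 ≤ T ∧ 0 < C ∧ ∃ w y : ℝ → E,
      (∀ t, T < t → HasDerivAt w (y t) t) ∧
      (∀ t, T < t → HasDerivAt y
        (F (t • a + -(Real.log t) • F a + k + w t) - (t ^ 2)⁻¹ • F a) t) ∧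
      (∀ t, T < t → ‖w t‖ ≤ C * t ^ (-(1 : ℝ) / 2)) ∧
      (∀ t, T < t → ‖y t‖ ≤ C * t ^ (-(3 : ℝ) / 2)) ∧
      (∀ t, T < t → a + t⁻¹ • (-(Real.log t) • F a + k + w t) ∈ Metric.closedBall a δ) := by
  set C0 : ℝ := 2 * ‖F a‖ + ‖k‖ + 1 with hC0
  have C0pos : 0 < C0 := by positivity
  set T0 : ℝ := max 1 ((C0 / δ) ^ 2) with hT0
  have T0one : 1 ≤ T0 := le_max_left _ _
  have T0pos : 0 < T0 := by linarith
  -- arguments stay in the ball
  have inball : ∀ (s : ℝ) (w : E), T0 ≤ s → ‖w‖ ≤ 1 →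
      a + s⁻¹ • (-(Real.log s) • F a + k + w) ∈ Metric.closedBall a δ := by
    intro s w hs hw
    have hs1 : 1 ≤ s := T0one.trans hs
    have hs0 : 0 < s := by linarith
    rw [mem_closedBall_iff_norm, add_sub_cancel_left]
    refine (arg_bound (F a) k w C0 s hs1 hC0 hw).trans ?_
    have h1 : (C0 / δ) ^ 2 ≤ s := (le_max_right _ _).trans hs
    have h2 : C0 / δ ≤ s ^ ((1 : ℝ) / 2) := by
      rw [← Real.sqrt_eq_rpow]
      exact Real.le_sqrt_of_sq_le h1
    have h3 : 0 < s ^ ((1 : ℝ) / 2) := Real.rpow_pos_of_pos hs0 _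
    have h4 : s ^ (-(1 : ℝ) / 2) = (s ^ ((1 : ℝ) / 2))⁻¹ := by
      rw [← Real.rpow_neg hs0.le]; norm_num
    rw [h4, ← div_eq_mul_inv, div_le_iff₀ h3]
    rw [div_le_iff₀ hδ] at h2
    linarith
  set M : ℝ := K * C0 with hM
  have M0 : 0 ≤ M := by positivity
  set T : ℝ := max (T0 + 1) (max (4 * M ^ 2 + 1) (2 * K + 1)) with hT
  have TT0 : T0 < T := by
    have : T0 + 1 ≤ T := le_max_left _ _
    linarith
  have T1 : 1 ≤ T := by linarith
  have Tpos : 0 < T := by linarith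
  have TM : 4 * M ^ 2 ≤ T := by
    have : 4 * M ^ 2 + 1 ≤ T := (le_max_left _ _).trans (le_max_right _ _)
    linarith
  have TK : 2 * K ≤ T := by
    have : 2 * (K : ℝ) + 1 ≤ T := (le_max_right _ _).trans (le_max_right _ _)
    linarith
  -- bound and continuity of G
  have Gb : ∀ (w : ℝ → E), (∀ s, ‖w s‖ ≤ 1) → ∀ s, T0 < s →
      ‖gf F a k w s‖ ≤ M * s ^ (-(5 : ℝ) / 2) := by
    intro w hw s hs
    have hs1 : 1 ≤ s := T0one.trans hs.le
    have hs0 : 0 < s := by linarith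
    unfold gf
    rw [norm_smul, Real.norm_eq_abs, abs_of_pos (by positivity)]
    have h1 := hLip.norm_sub_le (inball s (w s) hs.le (hw s)) (Metric.mem_closedBall_self hδ.le)
    rw [add_sub_cancel_left] at h1
    have h2 := arg_bound (F a) k (w s) C0 s hs1 hC0 (hw s)
    calc (s ^ 2)⁻¹ * ‖F (a + s⁻¹ • (-(Real.log s) • F a + k + w s)) - F a‖
        ≤ (s ^ 2)⁻¹ * (K * (C0 * s ^ (-(1 : ℝ) / 2))) := by
          apply mul_le_mul_of_nonneg_left _ (by positivity)
          exact h1.trans (mul_le_mul_of_nonneg_left h2 K.coe_nonneg)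
      _ = M * (s ^ (-(2 : ℝ)) * s ^ (-(1 : ℝ) / 2)) := by
          rw [Real.rpow_neg hs0.le, Real.rpow_two]; ring
      _ = M * s ^ (-(5 : ℝ) / 2) := by
          rw [← Real.rpow_add hs0]; norm_num
  have Gc : ∀ (w : ℝ → E), Continuous w → (∀ s, ‖w s‖ ≤ 1) →
      ContinuousOn (gf F a k w) (Ioi T0) := by
    intro w hwc hw
    unfold gf
    have hne : ∀ s ∈ Ioi T0, s ≠ 0 := fun s hs => (T0pos.trans hs).ne'
    refine ContinuousOn.smul ?_ ?_
    · exact ContinuousOn.inv₀ (continuousOn_id.pow 2) (fun s hs => pow_ne_zero 2 (hne s hs))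
    · refine ContinuousOn.sub ?_ continuousOn_const
      refine hLip.continuousOn.comp ?_ (fun s hs => inball s (w s) (le_of_lt hs) (hw s))
      refine continuousOn_const.add (ContinuousOn.smul (continuousOn_id.inv₀ hne) ?_)
      refine ((ContinuousOn.smul ?_ continuousOn_const).add continuousOn_const).add hwc.continuousOn
      exact (Real.continuousOn_log.mono (fun s hs => hne s hs)).neg
  -- the operator on the closed unit ball of bounded continuous functions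
  set B : Set (ℝ →ᵇ E) := Metric.closedBall 0 1 with hB
  have Bw : ∀ w : B, ∀ s, ‖(w : ℝ →ᵇ E) s‖ ≤ 1 := by
    intro w s
    have h1 : ‖(w : ℝ →ᵇ E)‖ ≤ 1 := mem_closedBall_zero_iff.mp w.2
    exact ((w : ℝ →ᵇ E).norm_coe_le_norm s).trans h1
  set Phi : (ℝ → E) → ℝ → E := fun w t =>
    tailB (gf F a k w) (max t T) - (max t T) • tailA (gf F a k w) (max t T) with hPhi
  have Phi_bd : ∀ (w : ℝ → E), Continuous w → (∀ s, ‖w s‖ ≤ 1) → ∀ t, ‖Phi w t‖ ≤ 1 := by
    intro w hwc hw t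
    have hmx : T ≤ max t T := le_max_right _ _
    have h1 := tail_norm (gf F a k w) T0 M T0pos (Gc w hwc hw) (Gb w hw) (max t T)
      (TT0.le.trans hmx)
    refine h1.trans ?_
    have h2 : 0 < max t T := Tpos.trans_le hmx
    have h3 : 2 * M ≤ (max t T) ^ ((1 : ℝ) / 2) := by
      rw [← Real.sqrt_eq_rpow]
      apply Real.le_sqrt_of_sq_le
      calc (2 * M) ^ 2 = 4 * M ^ 2 := by ring
        _ ≤ max t T := TM.trans hmx
    have h4 : (max t T) ^ (-(1 : ℝ) / 2) = ((max t T) ^ ((1 : ℝ) / 2))⁻¹ := by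
      rw [← Real.rpow_neg h2.le]; norm_num
    rw [h4, ← div_eq_mul_inv, div_le_one (Real.rpow_pos_of_pos h2 _)]
    exact h3
  have Phi_ct : ∀ (w : ℝ → E), Continuous w → (∀ s, ‖w s‖ ≤ 1) → Continuous (Phi w) := by
    intro w hwc hw
    rw [continuous_iff_continuousAt]
    intro t
    have hmx : T ≤ max t T := le_max_right _ _
    have h1 := (tail_deriv (gf F a k w) T0 M T0pos (Gc w hwc hw) (Gb w hw) (max t T)
      (lt_of_lt_of_le TT0 hmx)).1.continuousAt
    have h2 : ContinuousAt (fun t => max t T) t := (continuous_id.max continuous_const).continuousAt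
    exact ContinuousAt.comp (f := fun t => max t T)
      (g := fun t => tailB (gf F a k w) t - t • tailA (gf F a k w) t) h1 h2
  set Psi : B → B := fun w =>
    ⟨BoundedContinuousFunction.ofNormedAddCommGroup (Phi (w : ℝ →ᵇ E))
      (Phi_ct _ (w : ℝ →ᵇ E).continuous (Bw w)) 1
      (Phi_bd _ (w : ℝ →ᵇ E).continuous (Bw w)), by
      refine mem_closedBall_zero_iff.mpr ?_
      exact BoundedContinuousFunction.norm_ofNormedAddCommGroup_le _ (by norm_num) _⟩ with hPsi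
  have contr : ContractingWith (1 / 2) Psi := by
    refine ⟨by norm_num, LipschitzWith.of_dist_le_mul ?_⟩
    intro w1 w2
    rw [Subtype.dist_eq, BoundedContinuousFunction.dist_le (by positivity)]
    intro t
    have hmx : T ≤ max t T := le_max_right _ _
    have hd : ∀ s, ‖(w1 : ℝ →ᵇ E) s - (w2 : ℝ →ᵇ E) s‖ ≤ dist w1 w2 := by
      intro s
      rw [← dist_eq_norm, Subtype.dist_eq]
      exact BoundedContinuousFunction.dist_coe_le_dist s
    have hG : ∀ s, T0 < s → ‖gf F a k (w1 : ℝ →ᵇ E) s - gf F a k (w2 : ℝ →ᵇ E) s‖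
        ≤ (K * dist w1 w2) * s ^ (-(3 : ℝ)) := by
      intro s hs
      have hs0 : 0 < s := T0pos.trans hs
      unfold gf
      rw [← smul_sub, sub_sub_sub_cancel_right, norm_smul, Real.norm_eq_abs,
        abs_of_pos (by positivity)]
      have h1 := hLip.norm_sub_le (inball s _ hs.le (Bw w1 s)) (inball s _ hs.le (Bw w2 s))
      have h2 : (a + s⁻¹ • (-(Real.log s) • F a + k + (w1 : ℝ →ᵇ E) s))
          - (a + s⁻¹ • (-(Real.log s) • F a + k + (w2 : ℝ →ᵇ E) s))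
          = s⁻¹ • ((w1 : ℝ →ᵇ E) s - (w2 : ℝ →ᵇ E) s) := by
        rw [add_sub_add_left_eq_sub, ← smul_sub, add_sub_add_left_eq_sub]
      rw [h2, norm_smul, Real.norm_eq_abs, abs_of_pos (by positivity)] at h1
      calc (s ^ 2)⁻¹ * _ ≤ (s ^ 2)⁻¹ * (K * (s⁻¹ * dist w1 w2)) := by
            apply mul_le_mul_of_nonneg_left _ (by positivity)
            refine h1.trans ?_
            apply mul_le_mul_of_nonneg_left _ K.coe_nonneg
            exact mul_le_mul_of_nonneg_left (hd s) (by positivity)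
        _ = (K * dist w1 w2) * s ^ (-(3 : ℝ)) := by
            rw [Real.rpow_neg hs0.le]
            have : s ^ (3 : ℝ) = s ^ 3 := by
              rw [← Real.rpow_natCast]; norm_num
            rw [this]
            field_simp
    have h3 := tail_diff (gf F a k (w1 : ℝ →ᵇ E)) (gf F a k (w2 : ℝ →ᵇ E)) T0 M
      (K * dist w1 w2) T0pos (Gc _ (w1 : ℝ →ᵇ E).continuous (Bw w1))
      (Gc _ (w2 : ℝ →ᵇ E).continuous (Bw w2)) (Gb _ (Bw w1)) (Gb _ (Bw w2)) hG (max t T)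
      (TT0.le.trans hmx)
    rw [dist_eq_norm]
    refine h3.trans ?_
    have h4 : 0 < max t T := Tpos.trans_le hmx
    rw [← div_eq_mul_inv, div_le_iff₀ h4]
    have h5 : (0 : ℝ) ≤ dist w1 w2 := dist_nonneg
    have h6 : 2 * (K : ℝ) ≤ max t T := TK.trans hmx
    have h7 : ((1 / 2 : ℝ≥0) : ℝ) = 1 / 2 := by norm_num
    rw [h7]
    nlinarith
  haveI : CompleteSpace B := (Metric.isClosed_closedBall.isComplete).completeSpace_coe
  haveI : Nonempty B := ⟨⟨0, by rw [hB]; exact Metric.mem_closedBall_self (by norm_num)⟩⟩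
  obtain ⟨w, hw, _⟩ := contr.exists_fixedPoint (Classical.arbitrary B) (edist_ne_top _ _)
  have hfix : ∀ t, (w : ℝ →ᵇ E) t = Phi (w : ℝ →ᵇ E) t := by
    intro t
    have h1 : Psi w = w := hw
    have h2 : ((Psi w : B) : ℝ →ᵇ E) t = (w : ℝ →ᵇ E) t := by rw [h1]
    rw [← h2]
    rfl
  set w0 : ℝ → E := fun t => (w : ℝ →ᵇ E) t with hw0
  have w0c : Continuous w0 := (w : ℝ →ᵇ E).continuous
  have w0b : ∀ s, ‖w0 s‖ ≤ 1 := Bw w
  have hfix' : ∀ t, T ≤ t → w0 t = tailB (gf F a k w0) t - t • tailA (gf F a k w0) t := by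
    intro t ht
    have := hfix t
    simp only [hPhi, max_eq_left ht] at this
    exact this
  refine ⟨T, 2 * M + 1, T1, by positivity, w0, fun t => -(tailA (gf F a k w0) t), ?_, ?_, ?_, ?_, ?_⟩
  · intro t ht
    have h1 := (tail_deriv (gf F a k w0) T0 M T0pos (Gc w0 w0c w0b) (Gb w0 w0b) t
      (TT0.trans ht)).1
    refine h1.congr_of_eventuallyEq ?_
    filter_upwards [Ioi_mem_nhds ht] with s hs
    exact hfix' s (le_of_lt hs)
  · intro t ht
    have h1 := (tail_deriv (gf F a k w0) T0 M T0pos (Gc w0 w0c w0b) (Gb w0 w0b) t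
      (TT0.trans ht)).2
    refine h1.congr_deriv ?_
    have ht0 : 0 < t := Tpos.trans ht
    have hin := inball t (w0 t) (TT0.le.trans ht.le) (w0b t)
    have h2 := hhom t ht0 _ hin
    have h3 : t • (a + t⁻¹ • (-(Real.log t) • F a + k + w0 t))
        = t • a + -(Real.log t) • F a + k + w0 t := by
      rw [smul_add, smul_smul, mul_inv_cancel₀ ht0.ne', one_smul]
      abel
    rw [h3] at h2
    rw [h2]
    unfold gf
    rw [smul_sub]
  · intro t ht
    have ht0 : 0 < t := Tpos.trans ht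
    rw [hfix' t ht.le]
    refine (tail_norm (gf F a k w0) T0 M T0pos (Gc w0 w0c w0b) (Gb w0 w0b) t
      (TT0.le.trans ht.le)).trans ?_
    apply mul_le_mul_of_nonneg_right (by linarith) (Real.rpow_nonneg ht0.le _)
  · intro t ht
    have ht0 : 0 < t := Tpos.trans ht
    rw [norm_neg]
    refine (tailA_norm (gf F a k w0) T0 M T0pos (Gb w0 w0b) t (TT0.le.trans ht.le)).trans ?_
    apply mul_le_mul_of_nonneg_right (by linarith) (Real.rpow_nonneg ht0.le _)
  · intro t ht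
    exact inball t (w0 t) (TT0.le.trans ht.le) (w0b t)

end Pool.Agent.Y848.NB.Chazy

end
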