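import Mathlib
import Pool.Agent.Y848.NB.Chazy

set_option autoImplicit false

section

open MeasureTheory Set Filter Topology
open scoped NNReal

namespace Pool.Agent.Y848.NB

/-- space -/
abbrev R3 := EuclideanSpace ℝ (Fin 3)

variable {N : ℕ}

/-- accelerations of the N-body problem -/
noncomputable def acc (m : Fin N → ℝ) (q : Fin N → R3) (i : Fin N) : R3 :=
  ∑ j, (m j / ‖q j - q i‖ ^ 3) • (q j - q i)

theorem acc_hom (m : Fin N → ℝ) (s : ℝ) (hs : 0 < s) (x : Fin N → R3) :
    acc m (s • x) = (s ^ 2)⁻¹ • acc m x := by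
  funext i
  simp only [acc, Pi.smul_apply, Finset.smul_sum]
  refine Finset.sum_congr rfl fun j _ => ?_
  rw [← smul_sub, norm_smul, Real.norm_of_nonneg hs.le, smul_smul, smul_smul]
  congr 1
  by_cases h : ‖x j - x i‖ = 0
  · rw [h]; simp
  · field_simp

theorem acc_contDiffAt (m : Fin N → ℝ) (a : Fin N → R3) (ha : ∀ i j, i ≠ j → a i ≠ a j) :
    ContDiffAt ℝ 1 (acc m) a := by
  rw [contDiffAt_pi]
  intro i
  unfold acc
  refine ContDiffAt.sum fun j _ => ?_
  by_cases h : j = i
  · subst h
    have : (fun q : Fin N → R3 => (m j / ‖q j - q j‖ ^ 3) • (q j - q j)) = fun _ => 0 := by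
      funext q; simp
    rw [this]
    exact contDiffAt_const
  · have hsub : ContDiffAt ℝ 1 (fun q : Fin N → R3 => q j - q i) a :=
      ((contDiff_apply ℝ R3 j).contDiffAt).sub ((contDiff_apply ℝ R3 i).contDiffAt)
    have hne : a j - a i ≠ 0 := sub_ne_zero.mpr (ha j i h)
    have hs : ContDiffAt ℝ 1 (fun q : Fin N → R3 => m j / ‖q j - q i‖ ^ 3) a :=
      contDiffAt_const.div ((hsub.norm ℝ hne).pow 3) (pow_ne_zero 3 (norm_ne_zero_iff.mpr hne))
    exact hs.smul hsub

/-- determinant of the three difference vectors, by columns -/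
def D (X Y Z : Fin 4 → ℝ) : ℝ :=
  (X 1 - X 0) * ((Y 2 - Y 0) * (Z 3 - Z 0) - (Y 3 - Y 0) * (Z 2 - Z 0))
  - (Y 1 - Y 0) * ((X 2 - X 0) * (Z 3 - Z 0) - (X 3 - X 0) * (Z 2 - Z 0))
  + (Z 1 - Z 0) * ((X 2 - X 0) * (Y 3 - Y 0) - (X 3 - X 0) * (Y 2 - Y 0))

theorem D_cont : Continuous fun p : (Fin 4 → ℝ) × (Fin 4 → ℝ) × (Fin 4 → ℝ) =>
    D p.1 p.2.1 p.2.2 := by
  unfold D
  fun_prop

theorem D_tendsto {X Y Z : ℝ → Fin 4 → ℝ} {X0 Y0 Z0 : Fin 4 → ℝ}
    (hX : ∀ i, Tendsto (fun t => X t i) atTop (𝓝 (X0 i)))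
    (hY : ∀ i, Tendsto (fun t => Y t i) atTop (𝓝 (Y0 i)))
    (hZ : ∀ i, Tendsto (fun t => Z t i) atTop (𝓝 (Z0 i))) :
    Tendsto (fun t => D (X t) (Y t) (Z t)) atTop (𝓝 (D X0 Y0 Z0)) := by
  have h : Tendsto (fun t => (X t, Y t, Z t)) atTop (𝓝 (X0, Y0, Z0)) :=
    (tendsto_pi_nhds.mpr hX).prodMk_nhds
      ((tendsto_pi_nhds.mpr hY).prodMk_nhds (tendsto_pi_nhds.mpr hZ))
  exact (D_cont.tendsto (X0, Y0, Z0)).comp h

/-- vector with given coordinates -/
noncomputable def vec (x y z : ℝ) : R3 := !₂[x, y, z]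

@[simp] theorem vec0 (x y z : ℝ) : vec x y z 0 = x := rfl
@[simp] theorem vec1 (x y z : ℝ) : vec x y z 1 = y := rfl
@[simp] theorem vec2 (x y z : ℝ) : vec x y z 2 = z := rfl

/-- asymptotic velocities along the first axis -/
noncomputable def aa (a : Fin N → ℝ) (i : Fin N) : R3 := vec (a i) 0 0

theorem aa_sub (a : Fin N → ℝ) (i j : Fin N) : aa a j - aa a i = vec (a j - a i) 0 0 := by
  ext k
  fin_cases k <;> simp [aa]

theorem norm_vec (x : ℝ) : ‖vec x 0 0‖ = |x| := by
  rw [EuclideanSpace.norm_eq, Fin.sum_univ_three]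
  simp [Real.sqrt_sq_eq_abs]

/-- first coordinate of the acceleration at the asymptotic velocity configuration -/
noncomputable def fv (m a : Fin N → ℝ) (i : Fin N) : ℝ := acc m (aa a) i 0

theorem acc_aa_1 (m a : Fin N → ℝ) (i : Fin N) : acc m (aa a) i 1 = 0 := by
  unfold acc
  rw [WithLp.ofLp_sum, Finset.sum_apply]
  refine Finset.sum_eq_zero fun j _ => ?_
  rw [aa_sub]
  simp

theorem acc_aa_2 (m a : Fin N → ℝ) (i : Fin N) : acc m (aa a) i 2 = 0 := by
  unfold acc
  rw [WithLp.ofLp_sum, Finset.sum_apply]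
  refine Finset.sum_eq_zero fun j _ => ?_
  rw [aa_sub]
  simp

theorem fv_eq (m a : Fin N → ℝ) (i : Fin N) :
    fv m a i = ∑ j, (m j / ‖aa a j - aa a i‖ ^ 3) * (a j - a i) := by
  unfold fv acc
  rw [WithLp.ofLp_sum, Finset.sum_apply]
  refine Finset.sum_congr rfl fun j _ => ?_
  rw [aa_sub]
  simp

theorem rpow_half_tendsto (C : ℝ) :
    Tendsto (fun t : ℝ => C * t ^ (-(1 : ℝ) / 2)) atTop (𝓝 0) := by
  have h : Tendsto (fun t : ℝ => t ^ (-((1 : ℝ) / 2))) atTop (𝓝 0) :=
    tendsto_rpow_neg_atTop (by norm_num)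
  have h2 := h.const_mul C
  rw [mul_zero] at h2
  refine h2.congr fun t => ?_
  congr 2
  norm_num

theorem rpow_three_half_tendsto (C : ℝ) :
    Tendsto (fun t : ℝ => C * t ^ (-(3 : ℝ) / 2)) atTop (𝓝 0) := by
  have h : Tendsto (fun t : ℝ => t ^ (-((3 : ℝ) / 2))) atTop (𝓝 0) :=
    tendsto_rpow_neg_atTop (by norm_num)
  have h2 := h.const_mul C
  rw [mul_zero] at h2
  refine h2.congr fun t => ?_
  congr 2
  norm_num

theorem log_half_tendsto (C : ℝ) :
    Tendsto (fun t : ℝ => Real.log t * (C * t ^ (-(1 : ℝ) / 2))) atTop (𝓝 0) := by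
  have h := (isLittleO_log_rpow_atTop (r := (1 : ℝ) / 2) (by norm_num)).tendsto_div_nhds_zero
  have h2 := h.const_mul C
  rw [mul_zero] at h2
  refine h2.congr' ?_
  filter_upwards [eventually_gt_atTop 0] with t ht
  have : t ^ (-(1 : ℝ) / 2) = (t ^ ((1 : ℝ) / 2))⁻¹ := by
    rw [← Real.rpow_neg ht.le]; norm_num
  rw [this]
  ring

theorem coord_le (w : Fin N → R3) (i : Fin N) (c : Fin 3) : |w i c| ≤ ‖w‖ := by
  have h1 : ‖w i c‖ ≤ ‖w i‖ := PiLp.norm_apply_le (w i) c
  exact h1.trans (norm_le_pi_norm w i)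

theorem coord_deriv (w : ℝ → Fin N → R3) (t : ℝ) (y' : Fin N → R3)
    (h : HasDerivAt w y' t) (i : Fin N) (c : Fin 3) :
    HasDerivAt (fun t => w t i c) (y' i c) t := by
  have h1 : HasDerivAt (fun t => w t i) (y' i) t := (hasDerivAt_pi.mp h) i
  exact ((EuclideanSpace.proj c : R3 →L[ℝ] ℝ).hasFDerivAt).comp_hasDerivAt t h1

theorem main_asym (m a : Fin N → ℝ) (ha : Function.Injective a)
    (d κ : Fin N → ℝ) (β0 β1 β2 : ℝ) (hf : ∀ i, fv m a i = β0 + β1 * a i + β2 * d i) :
    ∃ (T : ℝ) (q v : ℝ → Fin N → R3),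
      (∀ t, T < t → (∀ i j, i ≠ j → q t i ≠ q t j) ∧ HasDerivAt q (v t) t ∧
        HasDerivAt v (acc m (q t)) t) ∧
      (∀ s : Fin 4 → Fin N,
        Tendsto (fun t => D (fun i => q t (s i) 0) (fun i => q t (s i) 1) (fun i => q t (s i) 2))
          atTop (𝓝 (D (fun i => κ (s i)) (fun i => a (s i)) (fun i => d (s i))))) ∧
      Tendsto (fun t => t⁻¹ • q t) atTop (𝓝 (aa a)) := by
  have haa : ∀ i j : Fin N, i ≠ j → aa a i ≠ aa a j := by
    intro i j hij h
    have h1 : aa a i 0 = aa a j 0 := by rw [h]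
    exact hij (ha h1)
  obtain ⟨K, u, hu, hLip⟩ := (acc_contDiffAt m (aa a) haa).exists_lipschitzOnWith
  obtain ⟨δ1, hδ1, hball⟩ := Metric.nhds_basis_closedBall.mem_iff.mp hu
  -- the separation of the asymptotic velocities
  obtain ⟨ρ, hρ, hsep⟩ : ∃ ρ : ℝ, 0 < ρ ∧ ∀ i j : Fin N, i ≠ j → ρ ≤ ‖aa a i - aa a j‖ := by
    by_cases hne : ((Finset.univ : Finset (Fin N × Fin N)).filter (fun p => p.1 ≠ p.2)).Nonempty
    · refine ⟨((Finset.univ : Finset (Fin N × Fin N)).filter (fun p => p.1 ≠ p.2)).inf' hne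
        (fun p => ‖aa a p.1 - aa a p.2‖), ?_, ?_⟩
      · rw [Finset.lt_inf'_iff]
        intro p hp
        rw [Finset.mem_filter] at hp
        exact norm_pos_iff.mpr (sub_ne_zero.mpr (haa _ _ hp.2))
      · intro i j hij
        exact Finset.inf'_le (fun p : Fin N × Fin N => ‖aa a p.1 - aa a p.2‖)
          (b := (i, j)) (by simp [hij])
    · refine ⟨1, one_pos, fun i j hij => ?_⟩
      exfalso
      exact hne ⟨(i, j), by simp [hij]⟩
  set δ : ℝ := min δ1 (ρ / 4) with hδdef
  have hδ : 0 < δ := lt_min hδ1 (by positivity)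
  have hLip' : LipschitzOnWith K (acc m) (Metric.closedBall (aa a) δ) :=
    hLip.mono ((Metric.closedBall_subset_closedBall (min_le_left _ _)).trans hball)
  set k : Fin N → R3 := fun i => vec (κ i) (a i) (d i) with hk
  obtain ⟨T, C, hT, hC, w, y, hw, hy, hwb, hyb, hin⟩ :=
    Chazy.chazy (acc m) (aa a) k δ hδ K hLip' (fun s hs x _ => acc_hom m s hs x)
  set q : ℝ → Fin N → R3 := fun t => t • aa a + -(Real.log t) • acc m (aa a) + k + w t with hq
  set v : ℝ → Fin N → R3 := fun t => aa a + -(t⁻¹) • acc m (aa a) + y t with hv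
  have hX : ∀ t i, q t i 0 = t * a i - Real.log t * fv m a i + κ i + w t i 0 := by
    intro t i
    simp only [hq, hk, fv, Pi.add_apply, Pi.smul_apply, PiLp.add_apply, PiLp.smul_apply,
      smul_eq_mul, aa, vec0]
    ring
  have hY : ∀ t i, q t i 1 = a i + w t i 1 := by
    intro t i
    simp only [hq, hk, Pi.add_apply, Pi.smul_apply, PiLp.add_apply, PiLp.smul_apply,
      smul_eq_mul, acc_aa_1]
    simp [aa]
  have hZ : ∀ t i, q t i 2 = d i + w t i 2 := by
    intro t i
    simp only [hq, hk, Pi.add_apply, Pi.smul_apply, PiLp.add_apply, PiLp.smul_apply,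
      smul_eq_mul, acc_aa_2]
    simp [aa]
  -- w tends to zero
  have wlim : ∀ i c, Tendsto (fun t => w t i c) atTop (𝓝 0) := by
    intro i c
    refine squeeze_zero_norm' ?_ (rpow_half_tendsto C)
    filter_upwards [eventually_gt_atTop T] with t ht
    exact (coord_le (w t) i c).trans (hwb t ht)
  have ylim : ∀ i c, Tendsto (fun t => y t i c) atTop (𝓝 0) := by
    intro i c
    refine squeeze_zero_norm' ?_ (rpow_three_half_tendsto C)
    filter_upwards [eventually_gt_atTop T] with t ht
    exact (coord_le (y t) i c).trans (hyb t ht)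
  have lwlim : ∀ i c, Tendsto (fun t => Real.log t * w t i c) atTop (𝓝 0) := by
    intro i c
    refine squeeze_zero_norm' ?_ (log_half_tendsto C)
    filter_upwards [eventually_gt_atTop T, eventually_ge_atTop 1] with t ht ht1
    rw [norm_mul, Real.norm_of_nonneg (Real.log_nonneg ht1)]
    exact mul_le_mul_of_nonneg_left ((coord_le (w t) i c).trans (hwb t ht)) (Real.log_nonneg ht1)
  -- rescaled configuration
  set x : ℝ → Fin N → R3 := fun t => aa a + t⁻¹ • (-(Real.log t) • acc m (aa a) + k + w t) with hx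
  have hqx : ∀ t, T < t → q t = t • x t := by
    intro t ht
    have ht0 : t ≠ 0 := by linarith
    simp only [hq, hx]
    rw [smul_add, smul_smul, mul_inv_cancel₀ ht0, one_smul]
    abel
  have hxlim : Tendsto x atTop (𝓝 (aa a)) := by
    have h1 : Tendsto (fun t : ℝ => t⁻¹ * Real.log t) atTop (𝓝 0) := by
      have := Real.isLittleO_log_id_atTop.tendsto_div_nhds_zero
      refine this.congr fun t => ?_
      simp [div_eq_inv_mul]
    have h2 : Tendsto (fun t : ℝ => t⁻¹) atTop (𝓝 0) := tendsto_inv_atTop_zero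
    have h3 : Tendsto w atTop (𝓝 0) := by
      refine squeeze_zero_norm' ?_ (rpow_half_tendsto C)
      filter_upwards [eventually_gt_atTop T] with t ht
      exact hwb t ht
    have h4 : Tendsto (fun t : ℝ => aa a + (-(t⁻¹ * Real.log t) • acc m (aa a) + t⁻¹ • k
        + t⁻¹ • w t))
        atTop (𝓝 (aa a + (-(0 : ℝ) • acc m (aa a) + (0 : ℝ) • k
          + (0 : ℝ) • (0 : Fin N → R3)))) :=
      tendsto_const_nhds.add (((h1.neg.smul_const _).add (h2.smul_const _)).add (h2.smul h3))
    simp only [neg_zero, zero_smul, add_zero] at h4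
    refine h4.congr fun t => ?_
    simp only [hx]
    rw [smul_add, smul_add, smul_smul]
    congr 4
    ring
  have hqv : ∀ t, T < t → HasDerivAt q (v t) t := by
    intro t ht
    have ht0 : t ≠ 0 := by linarith
    have h1 := ((((hasDerivAt_id t).smul_const (aa a)).add
      (((Real.hasDerivAt_log ht0).neg).smul_const (acc m (aa a)))).add_const k).add (hw t ht)
    refine h1.congr_deriv ?_
    simp [hv]
  have hvv : ∀ t, T < t → HasDerivAt v (acc m (q t)) t := by
    intro t ht
    have ht0 : t ≠ 0 := by linarith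
    have h1 := (((hasDerivAt_inv ht0).neg.smul_const (acc m (aa a))).const_add (aa a)).add
      (hy t ht)
    refine h1.congr_deriv ?_
    simp only [hq]
    rw [neg_neg]
    abel
  have hacc : ∀ t, T < t → ∀ i, t ^ 3 * acc m (q t) i 1
      = ∑ j, (m j / ‖x t j - x t i‖ ^ 3) * (q t j 1 - q t i 1) := by
    intro t ht i
    have ht0 : 0 < t := by linarith
    rw [hqx t ht, acc_hom m t ht0]
    simp only [Pi.smul_apply, PiLp.smul_apply, smul_eq_mul]
    have h1 : acc m (x t) i 1 = ∑ j, (m j / ‖x t j - x t i‖ ^ 3) * (x t j 1 - x t i 1) := by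
      unfold acc
      rw [WithLp.ofLp_sum, Finset.sum_apply]
      refine Finset.sum_congr rfl fun j _ => ?_
      simp
    rw [h1, Finset.mul_sum, Finset.mul_sum]
    refine Finset.sum_congr rfl fun j _ => ?_
    field_simp
  have hacclim : ∀ i, Tendsto (fun t => t ^ 3 * acc m (q t) i 1) atTop (𝓝 (fv m a i)) := by
    intro i
    have h1 : Tendsto (fun t => ∑ j, (m j / ‖x t j - x t i‖ ^ 3) * (q t j 1 - q t i 1)) atTop
        (𝓝 (∑ j, (m j / ‖aa a j - aa a i‖ ^ 3) * (a j - a i))) := by
      refine tendsto_finset_sum _ fun j _ => ?_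
      by_cases h : j = i
      · subst h; simp
      · have hxj : Tendsto (fun t => x t j - x t i) atTop (𝓝 (aa a j - aa a i)) :=
          ((tendsto_pi_nhds.mp hxlim) j).sub ((tendsto_pi_nhds.mp hxlim) i)
        have hne : ‖aa a j - aa a i‖ ^ 3 ≠ 0 :=
          pow_ne_zero 3 (norm_ne_zero_iff.mpr (sub_ne_zero.mpr (haa j i h)))
        have h2 : Tendsto (fun t => m j / ‖x t j - x t i‖ ^ 3) atTop
            (𝓝 (m j / ‖aa a j - aa a i‖ ^ 3)) :=
          tendsto_const_nhds.div (hxj.norm.pow 3) hne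
        refine h2.mul ?_
        have h3 : ∀ l, Tendsto (fun t => q t l 1) atTop (𝓝 (a l)) := by
          intro l
          have := (wlim l 1).const_add (a l)
          rw [add_zero] at this
          refine this.congr fun t => ?_
          rw [hY]
        exact (h3 j).sub (h3 i)
    rw [← fv_eq] at h1
    refine h1.congr' ?_
    filter_upwards [eventually_gt_atTop T] with t ht
    rw [hacc t ht i]
  -- first correction of the second coordinate
  have twlim : ∀ i, Tendsto (fun t => t * w t i 1) atTop (𝓝 (fv m a i / 2)) := by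
    intro i
    have g1 : Tendsto (fun t : ℝ => -(t ^ 2)⁻¹) atTop (𝓝 0) := by
      have : Tendsto (fun t : ℝ => (t ^ 2)⁻¹) atTop (𝓝 0) :=
        (tendsto_pow_atTop (by norm_num)).inv_tendsto_atTop
      simpa using this.neg
    have s1 : Tendsto (fun t => y t i 1 / (-(t ^ 2)⁻¹)) atTop (𝓝 (fv m a i / 2)) := by
      refine HasDerivAt.lhopital_zero_atTop (f := fun t => y t i 1) (g := fun t => -(t ^ 2)⁻¹)
        (f' := fun t => acc m (q t) i 1) (g' := fun t => 2 * (t ^ 3)⁻¹) ?_ ?_ ?_ (ylim i 1) g1 ?_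
      · filter_upwards [eventually_gt_atTop T] with t ht
        have h1 := coord_deriv y t _ (hy t ht) i 1
        refine h1.congr_deriv ?_
        simp [acc_aa_1, hq]
      · filter_upwards [eventually_gt_atTop T] with t ht
        have ht0 : t ≠ 0 := by linarith
        have h1 := ((hasDerivAt_pow 2 t).inv (pow_ne_zero 2 ht0)).neg
        refine h1.congr_deriv ?_
        field_simp
        simp
        ring
      · filter_upwards [eventually_gt_atTop T] with t ht
        have ht0 : t ≠ 0 := by linarith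
        positivity
      · have h1 := (hacclim i).div_const 2
        refine h1.congr' ?_
        filter_upwards [eventually_gt_atTop T] with t ht
        have ht0 : t ≠ 0 := by linarith
        field_simp
    have s2 : Tendsto (fun t => w t i 1 / t⁻¹) atTop (𝓝 (fv m a i / 2)) := by
      refine HasDerivAt.lhopital_zero_atTop (f := fun t => w t i 1) (g := fun t => t⁻¹)
        (f' := fun t => y t i 1) (g' := fun t => -(t ^ 2)⁻¹) ?_ ?_ ?_ (wlim i 1)
        tendsto_inv_atTop_zero s1
      · filter_upwards [eventually_gt_atTop T] with t ht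
        exact coord_deriv w t _ (hw t ht) i 1
      · filter_upwards [eventually_gt_atTop T] with t ht
        have ht0 : t ≠ 0 := by linarith
        exact hasDerivAt_inv ht0
      · filter_upwards [eventually_gt_atTop T] with t ht
        have ht0 : t ≠ 0 := by linarith
        exact neg_ne_zero.mpr (inv_ne_zero (pow_ne_zero 2 ht0))
    refine s2.congr' ?_
    filter_upwards [eventually_gt_atTop T] with t ht
    have ht0 : t ≠ 0 := by linarith
    field_simp
  refine ⟨T, q, v, ?_, ?_, ?_⟩
  · intro t ht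
    refine ⟨?_, hqv t ht, hvv t ht⟩
    intro i j hij heq
    have ht0 : 0 < t := by linarith
    have h1 := hin t ht
    rw [mem_closedBall_iff_norm] at h1
    have h2 : ∀ l, ‖x t l - aa a l‖ ≤ ρ / 4 := by
      intro l
      have h3 : ‖(x t - aa a) l‖ ≤ ‖x t - aa a‖ := norm_le_pi_norm _ l
      exact h3.trans (h1.trans (min_le_right _ _))
    have h4 : x t i = x t j := by
      rw [hqx t ht] at heq
      simp only [Pi.smul_apply] at heq
      exact smul_right_injective _ ht0.ne' heq
    have h5 := hsep i j hij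
    have h6 : aa a i - aa a j = -(x t i - aa a i) + (x t j - aa a j) := by rw [h4]; abel
    have h7 : ‖aa a i - aa a j‖ ≤ ρ / 4 + ρ / 4 := by
      rw [h6]
      refine (norm_add_le _ _).trans ?_
      rw [norm_neg]
      exact add_le_add (h2 i) (h2 j)
    linarith
  · intro s
    have key : ∀ t, T < t → D (fun i => q t (s i) 0) (fun i => q t (s i) 1)
        (fun i => q t (s i) 2)
        = D (fun i => a (s i)) (fun i => t * w t (s i) 1) (fun i => d (s i) + w t (s i) 2)
          - β1 * D (fun i => a (s i)) (fun i => Real.log t * w t (s i) 1)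
            (fun i => d (s i) + w t (s i) 2)
          - β2 * D (fun i => d (s i)) (fun i => a (s i) + w t (s i) 1)
            (fun i => Real.log t * w t (s i) 2)
          + D (fun i => κ (s i) + w t (s i) 0) (fun i => a (s i) + w t (s i) 1)
            (fun i => d (s i) + w t (s i) 2) := by
      intro t ht
      unfold D
      simp only [hX, hY, hZ, hf]
      ring
    have l1 : Tendsto (fun t => D (fun i => a (s i)) (fun i => t * w t (s i) 1)
        (fun i => d (s i) + w t (s i) 2)) atTop
        (𝓝 (D (fun i => a (s i)) (fun i => fv m a (s i) / 2) (fun i => d (s i)))) := by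
      refine D_tendsto (fun i => tendsto_const_nhds) (fun i => twlim (s i)) (fun i => ?_)
      simpa using (wlim (s i) 2).const_add (d (s i))
    have l2 : Tendsto (fun t => D (fun i => a (s i)) (fun i => Real.log t * w t (s i) 1)
        (fun i => d (s i) + w t (s i) 2))
        atTop (𝓝 (D (fun i => a (s i)) (fun _ => 0) (fun i => d (s i)))) := by
      refine D_tendsto (fun i => tendsto_const_nhds) (fun i => lwlim (s i) 1) (fun i => ?_)
      simpa using (wlim (s i) 2).const_add (d (s i))
    have l3 : Tendsto (fun t => D (fun i => d (s i)) (fun i => a (s i) + w t (s i) 1)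
        (fun i => Real.log t * w t (s i) 2))
        atTop (𝓝 (D (fun i => d (s i)) (fun i => a (s i)) (fun _ => 0))) := by
      refine D_tendsto (fun i => tendsto_const_nhds) (fun i => ?_) (fun i => lwlim (s i) 2)
      simpa using (wlim (s i) 1).const_add (a (s i))
    have l4 : Tendsto (fun t => D (fun i => κ (s i) + w t (s i) 0)
        (fun i => a (s i) + w t (s i) 1)
        (fun i => d (s i) + w t (s i) 2)) atTop
        (𝓝 (D (fun i => κ (s i)) (fun i => a (s i)) (fun i => d (s i)))) := by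
      refine D_tendsto (fun i => ?_) (fun i => ?_) (fun i => ?_)
      · simpa using (wlim (s i) 0).const_add (κ (s i))
      · simpa using (wlim (s i) 1).const_add (a (s i))
      · simpa using (wlim (s i) 2).const_add (d (s i))
    have l5 := ((l1.sub (l2.const_mul β1)).sub (l3.const_mul β2)).add l4
    have e0 : D (fun i => a (s i)) (fun i => fv m a (s i) / 2) (fun i => d (s i))
        - β1 * D (fun i => a (s i)) (fun _ => 0) (fun i => d (s i))
        - β2 * D (fun i => d (s i)) (fun i => a (s i)) (fun _ => 0)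
        + D (fun i => κ (s i)) (fun i => a (s i)) (fun i => d (s i))
        = D (fun i => κ (s i)) (fun i => a (s i)) (fun i => d (s i)) := by
      unfold D
      simp only [hf]
      ring
    rw [e0] at l5
    refine l5.congr' ?_
    filter_upwards [eventually_gt_atTop T] with t ht
    exact (key t ht).symm
  · refine hxlim.congr' ?_
    filter_upwards [eventually_gt_atTop T] with t ht
    have ht0 : t ≠ 0 := by linarith
    rw [hqx t ht, smul_smul, inv_mul_cancel₀ ht0, one_smul]

end Pool.Agent.Y848.NB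

end
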