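import Mathlib
import Pool.Agent.Y848.NB.Asym

set_option autoImplicit false

open Filter Topology

namespace Pool.Agent.Y848.NB

/-- collinear accelerations, bodies indexed by natural numbers -/
noncomputable def ff (m a : ℕ → ℝ) (n i : ℕ) : ℝ :=
  ∑ j ∈ Finset.range n, m j * ((a j - a i) / |a j - a i| ^ 3)

/-- the three by three determinant -/
def TT (f a : ℕ → ℝ) (i j k : ℕ) : ℝ :=
  (f j - f i) * (a k - a i) - (f k - f i) * (a j - a i)

theorem inv_sq_lim (b : ℝ) :
    Tendsto (fun A : ℝ => (A - b) / |A - b| ^ 3) atTop (𝓝 0) := by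
  have h1 : Tendsto (fun A : ℝ => A - b) atTop atTop := tendsto_atTop_add_const_right _ _ tendsto_id
  have h2 : Tendsto (fun A : ℝ => ((A - b) ^ 2)⁻¹) atTop (𝓝 0) :=
    ((tendsto_pow_atTop (by norm_num)).comp h1).inv_tendsto_atTop
  refine h2.congr' ?_
  filter_upwards [eventually_gt_atTop b] with A hA
  have h3 : 0 < A - b := by linarith
  rw [abs_of_pos h3]
  field_simp

theorem inv_sq_lim' (b : ℝ) :
    Tendsto (fun A : ℝ => (b - A) / |b - A| ^ 3) atTop (𝓝 0) := by
  have h := (inv_sq_lim b).neg
  rw [neg_zero] at h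
  refine h.congr fun A => ?_
  rw [abs_sub_comm b A]
  ring

theorem ff_upd (m a : ℕ → ℝ) (n i : ℕ) (hi : i < n) (A : ℝ) :
    ff m (Function.update a n A) (n + 1) i
      = ff m a n i + m n * ((A - a i) / |A - a i| ^ 3) := by
  unfold ff
  rw [Finset.sum_range_succ]
  have hin : i ≠ n := hi.ne
  rw [Function.update_self, Function.update_of_ne hin]
  congr 1
  refine Finset.sum_congr rfl fun j hj => ?_
  have hjn : j ≠ n := (Finset.mem_range.mp hj).ne
  rw [Function.update_of_ne hjn]

theorem ff_upd_last (m a : ℕ → ℝ) (n : ℕ) (A : ℝ) :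
    ff m (Function.update a n A) (n + 1) n
      = ∑ j ∈ Finset.range n, m j * ((a j - A) / |a j - A| ^ 3) := by
  unfold ff
  rw [Finset.sum_range_succ, Function.update_self, sub_self, zero_div, mul_zero, add_zero]
  refine Finset.sum_congr rfl fun j hj => ?_
  have hjn : j ≠ n := (Finset.mem_range.mp hj).ne
  rw [Function.update_of_ne hjn]

/-- generic collinear positions -/
theorem gen (m : ℕ → ℝ) (hm : ∀ i, 0 < m i) (n : ℕ) (hn : 2 ≤ n) :
    ∃ a : ℕ → ℝ, (∀ i j, i < j → j < n → a i ≠ a j) ∧
      (∀ i, i < n → ff m a n i ≠ 0) ∧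
      (∀ i j, i < j → j < n → ff m a n j - ff m a n i ≠ 0) ∧
      (∀ i j k, i < j → j < k → k < n → TT (ff m a n) a i j k ≠ 0) := by
  induction n, hn using Nat.le_induction with
  | base =>
    have e0 : ff m (fun i : ℕ => (i : ℝ)) 2 0 = m 1 := by
      unfold ff
      rw [Finset.sum_range_succ, Finset.sum_range_succ, Finset.sum_range_zero]
      simp
    have e1 : ff m (fun i : ℕ => (i : ℝ)) 2 1 = - m 0 := by
      unfold ff
      rw [Finset.sum_range_succ, Finset.sum_range_succ, Finset.sum_range_zero]
      simp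
    refine ⟨fun i => (i : ℝ), ?_, ?_, ?_, ?_⟩
    · intro i j h1 _ h3
      have h4 : (i : ℝ) = (j : ℝ) := h3
      have : i = j := by exact_mod_cast h4
      omega
    · intro i hi
      have h : i = 0 ∨ i = 1 := by omega
      rcases h with h | h
      · rw [h, e0]; exact (hm 1).ne'
      · rw [h, e1]; have := hm 0; intro h5; linarith
    · intro i j h1 h2
      have hi : i = 0 := by omega
      have hj : j = 1 := by omega
      rw [hi, hj, e0, e1]
      have := hm 0
      have := hm 1
      intro h5
      linarith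
    · intro i j k h1 h2 h3
      omega
  | succ n hn ih =>
    obtain ⟨a, ha, hf0, hf1, hT⟩ := ih
    -- limits
    have lf : ∀ i, i < n → Tendsto (fun A : ℝ => ff m (Function.update a n A) (n + 1) i) atTop
        (𝓝 (ff m a n i)) := by
      intro i hi
      have h1 := ((inv_sq_lim (a i)).const_mul (m n)).const_add (ff m a n i)
      rw [mul_zero, add_zero] at h1
      refine h1.congr fun A => ?_
      rw [ff_upd m a n i hi A]
    have ln : Tendsto (fun A : ℝ => ff m (Function.update a n A) (n + 1) n) atTop (𝓝 0) := by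
      have h1 : Tendsto (fun A : ℝ => ∑ j ∈ Finset.range n,
          m j * ((a j - A) / |a j - A| ^ 3)) atTop (𝓝 (∑ j ∈ Finset.range n, m j * 0)) :=
        tendsto_finsetSum _ fun j _ => (inv_sq_lim' (a j)).const_mul (m j)
      simp only [mul_zero, Finset.sum_const_zero] at h1
      refine h1.congr fun A => ?_
      rw [ff_upd_last]
    have big : ∀ᶠ A : ℝ in atTop, ∀ j ∈ Finset.range n, a j < A := by
      rw [Filter.eventually_all_finset]
      intro j _
      exact eventually_gt_atTop (a j)
    have c1 : ∀ᶠ A : ℝ in atTop, ∀ i ∈ Finset.range n,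
        ff m (Function.update a n A) (n + 1) i ≠ 0 := by
      rw [Filter.eventually_all_finset]
      intro i hi
      exact (lf i (Finset.mem_range.mp hi)).eventually_ne (hf0 i (Finset.mem_range.mp hi))
    have c1n : ∀ᶠ A : ℝ in atTop, ff m (Function.update a n A) (n + 1) n ≠ 0 := by
      filter_upwards [big] with A hA
      rw [ff_upd_last]
      have h1 : ∑ j ∈ Finset.range n, m j * ((a j - A) / |a j - A| ^ 3)
          < ∑ j ∈ Finset.range n, (0 : ℝ) := by
        refine Finset.sum_lt_sum_of_nonempty ⟨0, Finset.mem_range.mpr (by omega)⟩ fun j hj => ?_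
        have h2 : a j - A < 0 := by linarith [hA j hj]
        have h3 : 0 < |a j - A| := abs_pos.mpr h2.ne
        exact mul_neg_of_pos_of_neg (hm j) (div_neg_of_neg_of_pos h2 (by positivity))
      rw [Finset.sum_const_zero] at h1
      exact h1.ne
    have c2 : ∀ᶠ A : ℝ in atTop, ∀ i ∈ Finset.range n, ∀ j ∈ Finset.range n, i < j →
        ff m (Function.update a n A) (n + 1) j - ff m (Function.update a n A) (n + 1) i ≠ 0 := by
      rw [Filter.eventually_all_finset]
      intro i hi
      rw [Filter.eventually_all_finset]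
      intro j hj
      by_cases hij : i < j
      · have h1 := ((lf j (Finset.mem_range.mp hj)).sub (lf i (Finset.mem_range.mp hi))).eventually_ne
          (hf1 i j hij (Finset.mem_range.mp hj))
        filter_upwards [h1] with A hA _
        exact hA
      · exact Eventually.of_forall fun A h => absurd h hij
    have c2n : ∀ᶠ A : ℝ in atTop, ∀ i ∈ Finset.range n,
        ff m (Function.update a n A) (n + 1) n - ff m (Function.update a n A) (n + 1) i ≠ 0 := by
      rw [Filter.eventually_all_finset]
      intro i hi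
      refine (ln.sub (lf i (Finset.mem_range.mp hi))).eventually_ne ?_
      rw [zero_sub]
      exact neg_ne_zero.mpr (hf0 i (Finset.mem_range.mp hi))
    have c3 : ∀ᶠ A : ℝ in atTop, ∀ i ∈ Finset.range n, ∀ j ∈ Finset.range n,
        ∀ k ∈ Finset.range n, i < j → j < k →
        TT (ff m (Function.update a n A) (n + 1)) (Function.update a n A) i j k ≠ 0 := by
      rw [Filter.eventually_all_finset]
      intro i hi
      rw [Filter.eventually_all_finset]
      intro j hj
      rw [Filter.eventually_all_finset]
      intro k hk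
      by_cases hij : i < j ∧ j < k
      · have hi' := Finset.mem_range.mp hi
        have hj' := Finset.mem_range.mp hj
        have hk' := Finset.mem_range.mp hk
        have h1 := ((((lf j hj').sub (lf i hi')).mul_const (a k - a i)).sub
          (((lf k hk').sub (lf i hi')).mul_const (a j - a i))).eventually_ne
          (hT i j k hij.1 hij.2 hk')
        filter_upwards [h1] with A hA _ _
        unfold TT
        rw [Function.update_of_ne hi'.ne, Function.update_of_ne hj'.ne,
          Function.update_of_ne hk'.ne]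
        exact hA
      · exact Eventually.of_forall fun A h h' => absurd ⟨h, h'⟩ hij
    have c3n : ∀ᶠ A : ℝ in atTop, ∀ i ∈ Finset.range n, ∀ j ∈ Finset.range n, i < j →
        TT (ff m (Function.update a n A) (n + 1)) (Function.update a n A) i j n ≠ 0 := by
      rw [Filter.eventually_all_finset]
      intro i hi
      rw [Filter.eventually_all_finset]
      intro j hj
      by_cases hij : i < j
      · have hi' := Finset.mem_range.mp hi
        have hj' := Finset.mem_range.mp hj
        have g1 : Tendsto (fun A : ℝ => (A - a i) / A) atTop (𝓝 1) := by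
          have h5 : Tendsto (fun A : ℝ => 1 - a i * A⁻¹) atTop (𝓝 (1 - a i * 0)) :=
            (tendsto_inv_atTop_zero.const_mul (a i)).const_sub 1
          rw [mul_zero, sub_zero] at h5
          refine h5.congr' ?_
          filter_upwards [eventually_gt_atTop 0] with A hA
          field_simp
        have h1 := (((lf j hj').sub (lf i hi')).mul g1).sub
          ((((ln.sub (lf i hi')).mul_const (a j - a i))).mul tendsto_inv_atTop_zero)
        rw [mul_zero, sub_zero, mul_one] at h1
        have h2 := h1.eventually_ne (hf1 i j hij hj')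
        filter_upwards [h2, eventually_gt_atTop 0] with A hA hA0 _
        unfold TT
        rw [Function.update_of_ne hi'.ne, Function.update_of_ne hj'.ne, Function.update_self]
        intro h6
        apply hA
        have h7 : ∀ x y z w : ℝ, x * (z / A) - y * w * A⁻¹ = (x * z - y * w) / A := by
          intro x y z w
          field_simp
        rw [h7, h6, zero_div]
      · exact Eventually.of_forall fun A h => absurd h hij
    obtain ⟨A, hA, h1, h1n, h2, h2n, h3, h3n⟩ :=
      (big.and (c1.and (c1n.and (c2.and (c2n.and (c3.and c3n)))))).exists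
    refine ⟨Function.update a n A, ?_, ?_, ?_, ?_⟩
    · intro i j hij hj
      rcases Nat.lt_succ_iff_lt_or_eq.mp hj with hj | hj
      · rw [Function.update_of_ne (by omega), Function.update_of_ne (by omega)]
        exact ha i j hij hj
      · subst hj
        rw [Function.update_of_ne (by omega), Function.update_self]
        exact (hA i (Finset.mem_range.mpr hij)).ne
    · intro i hi
      rcases Nat.lt_succ_iff_lt_or_eq.mp hi with hi | hi
      · exact h1 i (Finset.mem_range.mpr hi)
      · subst hi
        exact h1n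
    · intro i j hij hj
      rcases Nat.lt_succ_iff_lt_or_eq.mp hj with hj | hj
      · exact h2 i (Finset.mem_range.mpr (by omega)) j (Finset.mem_range.mpr hj) hij
      · subst hj
        exact h2n i (Finset.mem_range.mpr hij)
    · intro i j k hij hjk hk
      rcases Nat.lt_succ_iff_lt_or_eq.mp hk with hk | hk
      · exact h3 i (Finset.mem_range.mpr (by omega)) j (Finset.mem_range.mpr (by omega)) k
          (Finset.mem_range.mpr hk) hij hjk
      · subst hk
        exact h3n i (Finset.mem_range.mpr (by omega)) j (Finset.mem_range.mpr hjk) hij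

theorem TT_ne (f a : ℕ → ℝ) (n : ℕ)
    (h : ∀ i j k, i < j → j < k → k < n → TT f a i j k ≠ 0) (i j k : ℕ)
    (hi : i < n) (hj : j < n) (hk : k < n) (hij : i ≠ j) (hjk : j ≠ k) (hik : i ≠ k) :
    TT f a i j k ≠ 0 := by
  have s1 : ∀ i j k, TT f a i j k = - TT f a j i k := by intro i j k; unfold TT; ring
  have s2 : ∀ i j k, TT f a i j k = - TT f a i k j := by intro i j k; unfold TT; ring
  rcases lt_or_gt_of_ne hij with a1 | a1
  · rcases lt_or_gt_of_ne hjk with a2 | a2
    · exact h i j k a1 a2 hk
    · rcases lt_or_gt_of_ne hik with a3 | a3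
      · rw [s2]; exact neg_ne_zero.mpr (h i k j a3 a2 hj)
      · rw [s2, s1, neg_neg]; exact h k i j a3 a1 hj
  · rcases lt_or_gt_of_ne hjk with a2 | a2
    · rcases lt_or_gt_of_ne hik with a3 | a3
      · rw [s1]; exact neg_ne_zero.mpr (h j i k a1 a3 hk)
      · rw [s1, s2, neg_neg]; exact h j k i a2 a3 hi
    · rw [s1, s2, s1, neg_neg]
      exact neg_ne_zero.mpr (h k j i a2 a1 hi)

theorem D_TT (κ f a : ℕ → ℝ) (s : Fin 4 → ℕ) :
    D (fun i => κ (s i)) (fun i => a (s i)) (fun i => f (s i))
      = κ (s 0) * TT f a (s 1) (s 2) (s 3) - κ (s 1) * TT f a (s 0) (s 2) (s 3)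
        + κ (s 2) * TT f a (s 0) (s 1) (s 3) - κ (s 3) * TT f a (s 0) (s 1) (s 2) := by
  unfold D TT
  ring

open Polynomial in
/-- generic first coordinates -/
theorem gen_kappa (f a : ℕ → ℝ) (n : ℕ)
    (h : ∀ i j k, i < j → j < k → k < n → TT f a i j k ≠ 0) :
    ∃ M : ℝ, ∀ s : Fin 4 ↪ Fin n,
      D (fun i => M ^ (s i : ℕ)) (fun i => a (s i)) (fun i => f (s i)) ≠ 0 := by
  classical
  set P : (Fin 4 ↪ Fin n) → ℝ[X] := fun s =>
    C (TT f a (s 1) (s 2) (s 3)) * X ^ (s 0 : ℕ) - C (TT f a (s 0) (s 2) (s 3)) * X ^ (s 1 : ℕ)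
      + C (TT f a (s 0) (s 1) (s 3)) * X ^ (s 2 : ℕ)
      - C (TT f a (s 0) (s 1) (s 2)) * X ^ (s 3 : ℕ) with hP
  have hne : ∀ (s : Fin 4 ↪ Fin n) (i j : Fin 4), i ≠ j → ((s i : ℕ)) ≠ (s j : ℕ) := by
    intro s i j hij h1
    exact hij (s.injective (Fin.ext h1))
  have hP0 : ∀ s, P s ≠ 0 := by
    intro s h0
    have h1 : (P s).coeff (s 0 : ℕ) = 0 := by rw [h0, coeff_zero]
    rw [hP] at h1
    simp only [coeff_sub, coeff_add, coeff_C_mul, coeff_X_pow] at h1
    rw [if_neg (hne s 0 1 (by decide)), if_neg (hne s 0 2 (by decide)),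
      if_neg (hne s 0 3 (by decide))] at h1
    simp only [if_true, mul_one, mul_zero, sub_zero, add_zero] at h1
    exact TT_ne f a n h _ _ _ (s 1).2 (s 2).2 (s 3).2 (hne s 1 2 (by decide))
      (hne s 2 3 (by decide)) (hne s 1 3 (by decide)) h1
  have hprod : (∏ s, P s) ≠ 0 := Finset.prod_ne_zero_iff.mpr fun s _ => hP0 s
  have hex : ∃ M : ℝ, (∏ s, P s).eval M ≠ 0 := by
    by_contra hcon
    push Not at hcon
    exact hprod (Polynomial.funext fun M => by rw [hcon M, eval_zero])
  obtain ⟨M, hM⟩ := hex
  refine ⟨M, fun s => ?_⟩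
  rw [eval_prod] at hM
  have h1 := (Finset.prod_ne_zero_iff.mp hM) s (Finset.mem_univ s)
  rw [hP] at h1
  simp only [eval_sub, eval_add, eval_mul, eval_C, eval_pow, eval_X] at h1
  intro h2
  apply h1
  have h3 := D_TT (fun i => M ^ i) f a (fun i => (s i : ℕ))
  rw [h2] at h3
  linarith

end Pool.Agent.Y848.NB
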